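import Pool.Agent.helper66.LIN.Spec

set_option autoImplicit false

/-! Row ESZ: Erdos, Szekeres -/

namespace LSH.Lin

open Classical in
/-- the chains (for a relation `R`) in `Z` whose rightmost point is `z` -/
private noncomputable def ESZ_ch (R : Pt → Pt → Prop) (Z : Finset Pt) (z : Pt) :
    Finset (Finset Pt) :=
  Z.powerset.filter (fun C => (∀ a ∈ C, ∀ b ∈ C, a.1 < b.1 → R a b) ∧ z ∈ C ∧ ∀ c ∈ C, c.1 ≤ z.1)

private noncomputable def ESZ_f (R : Pt → Pt → Prop) (Z : Finset Pt) (z : Pt) : ℕ :=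
  (ESZ_ch R Z z).sup Finset.card

private lemma ESZ_mem (R : Pt → Pt → Prop) (Z : Finset Pt) (z : Pt) (C : Finset Pt) :
    C ∈ ESZ_ch R Z z ↔ C ⊆ Z ∧ (∀ a ∈ C, ∀ b ∈ C, a.1 < b.1 → R a b) ∧ z ∈ C ∧
      ∀ c ∈ C, c.1 ≤ z.1 := by
  classical
  unfold ESZ_ch
  rw [Finset.mem_filter, Finset.mem_powerset]

private lemma ESZ_single (R : Pt → Pt → Prop) (Z : Finset Pt) (z : Pt) (hz : z ∈ Z) :
    {z} ∈ ESZ_ch R Z z := by
  rw [ESZ_mem]
  refine ⟨Finset.singleton_subset_iff.2 hz, ?_, Finset.mem_singleton_self z, ?_⟩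
  · intro a ha b hb hab
    rw [Finset.mem_singleton] at ha hb
    rw [ha, hb] at hab
    exact absurd hab (lt_irrefl _)
  · intro c hc
    rw [Finset.mem_singleton] at hc
    rw [hc]

private lemma ESZ_one (R : Pt → Pt → Prop) (Z : Finset Pt) (z : Pt) (hz : z ∈ Z) :
    1 ≤ ESZ_f R Z z := by
  have h := Finset.le_sup (f := Finset.card) (ESZ_single R Z z hz)
  rw [Finset.card_singleton] at h
  exact h

private lemma ESZ_att (R : Pt → Pt → Prop) (Z : Finset Pt) (z : Pt) (hz : z ∈ Z) :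
    ∃ C ∈ ESZ_ch R Z z, ESZ_f R Z z = C.card :=
  Finset.exists_mem_eq_sup _ ⟨_, ESZ_single R Z z hz⟩ _

private lemma ESZ_step (R : Pt → Pt → Prop) (hR : ∀ a b c, R a b → R b c → R a c)
    (Z : Finset Pt) (hZ : Gen (Z : Set Pt)) (z w : Pt) (hz : z ∈ Z) (hw : w ∈ Z)
    (h1 : z.1 < w.1) (h2 : R z w) : ESZ_f R Z z < ESZ_f R Z w := by
  obtain ⟨C, hC, e⟩ := ESZ_att R Z z hz
  rw [ESZ_mem] at hC
  obtain ⟨c1, c2, c3, c4⟩ := hC
  have hwC : w ∉ C := fun h => absurd (c4 w h) (not_le.2 h1)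
  have hm : insert w C ∈ ESZ_ch R Z w := by
    rw [ESZ_mem]
    refine ⟨Finset.insert_subset hw c1, ?_, Finset.mem_insert_self w C, ?_⟩
    · intro a ha b hb hab
      rw [Finset.mem_insert] at ha hb
      rcases ha with ha | ha
      · rcases hb with hb | hb
        · rw [ha, hb] at hab
          exact absurd hab (lt_irrefl _)
        · rw [ha] at hab
          exact absurd (lt_trans hab (lt_of_le_of_lt (c4 b hb) h1)) (lt_irrefl _)
      · rcases hb with hb | hb
        · rw [hb]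
          by_cases haz : a = z
          · rw [haz]
            exact h2
          · have h3 := (hZ a (c1 ha) z hz haz).1
            exact hR a z w (c2 a ha z c3 (lt_of_le_of_ne (c4 a ha) h3)) h2
        · exact c2 a ha b hb hab
    · intro c hc
      rw [Finset.mem_insert] at hc
      rcases hc with hc | hc
      · rw [hc]
      · exact le_trans (c4 c hc) h1.le
  have h := Finset.le_sup (f := Finset.card) hm
  rw [Finset.card_insert_of_notMem hwC] at h
  rw [e]
  exact h

private lemma ESZ_get (R : Pt → Pt → Prop) (Z : Finset Pt) (z : Pt) (hz : z ∈ Z) (m : ℕ)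
    (hm : m ≤ ESZ_f R Z z) :
    ∃ C ⊆ Z, (∀ a ∈ C, ∀ b ∈ C, a.1 < b.1 → R a b) ∧ C.card = m := by
  obtain ⟨C, hC, e⟩ := ESZ_att R Z z hz
  rw [ESZ_mem] at hC
  rw [e] at hm
  obtain ⟨D, hD, hDc⟩ := Finset.exists_subset_card_eq hm
  exact ⟨D, hD.trans hC.1, fun a ha b hb => hC.2.1 a (hD ha) b (hD hb), hDc⟩

theorem ESZ : ESZ_stmt := by
  intro Z a p hZ hcard
  by_contra hno
  push Not at hno
  have hp : ∀ z ∈ Z, ESZ_f (fun x y => x.2 < y.2) Z z < p := by
    intro z hz
    by_contra hge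
    obtain ⟨C, h1, h2, h3⟩ := ESZ_get _ Z z hz p (not_lt.1 hge)
    exact (hno C h1).1 h2 h3
  have ha : ∀ z ∈ Z, ESZ_f (fun x y => y.2 < x.2) Z z < a := by
    intro z hz
    by_contra hge
    obtain ⟨C, h1, h2, h3⟩ := ESZ_get _ Z z hz a (not_lt.1 hge)
    exact (hno C h1).2 h2 h3
  have hle : Z.card ≤ (Finset.range (a - 1) ×ˢ Finset.range (p - 1)).card := by
    apply Finset.card_le_card_of_injOn
      (fun z => (ESZ_f (fun x y => y.2 < x.2) Z z - 1, ESZ_f (fun x y => x.2 < y.2) Z z - 1))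
    · intro z hz
      have hz' : z ∈ Z := hz
      have e1 := ESZ_one (fun x y => x.2 < y.2) Z z hz'
      have e2 := ESZ_one (fun x y => y.2 < x.2) Z z hz'
      have e3 := hp z hz'
      have e4 := ha z hz'
      simp only [Finset.coe_product, Set.mem_prod, Finset.mem_coe, Finset.mem_range]
      omega
    · have key : ∀ z ∈ Z, ∀ w ∈ Z, z.1 < w.1 →
          (ESZ_f (fun x y => y.2 < x.2) Z z - 1, ESZ_f (fun x y => x.2 < y.2) Z z - 1) ≠
            (ESZ_f (fun x y => y.2 < x.2) Z w - 1, ESZ_f (fun x y => x.2 < y.2) Z w - 1) := by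
        intro z hz w hw hzw heq
        have e1 := ESZ_one (fun x y => x.2 < y.2) Z z hz
        have e2 := ESZ_one (fun x y => y.2 < x.2) Z z hz
        rw [Prod.mk.injEq] at heq
        obtain ⟨q1, q2⟩ := heq
        have hne : z ≠ w := by
          intro h
          rw [h] at hzw
          exact lt_irrefl _ hzw
        rcases lt_or_gt_of_ne (hZ z hz w hw hne).2 with h | h
        · have h3 := ESZ_step (fun x y => x.2 < y.2) (fun a b c h1 h2 => lt_trans h1 h2) Z hZ
            z w hz hw hzw h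
          omega
        · have h3 := ESZ_step (fun x y => y.2 < x.2) (fun a b c h1 h2 => lt_trans h2 h1) Z hZ
            z w hz hw hzw h
          omega
      intro z hz w hw heq
      by_contra hne
      rcases lt_or_gt_of_ne (hZ z hz w hw hne).1 with h | h
      · exact key z hz w hw h heq
      · exact key w hw z hz h heq.symm
  rw [Finset.card_product, Finset.card_range, Finset.card_range] at hle
  omega

end LSH.Lin
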